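import Pool.Agent.TH555.FG.Johnson

/-!
# MP_c58f18_gt: if the Torelli group and its commutator subgroup are finitely generated then so are
all terms of the Johnson filtration

For a group `π` let `𝓘_π(k)` be the kernel of `Out(π) → Out(π / γ_{k+1}(π))`; for the fundamental
group `π` of the closed oriented surface of genus `g` this is the group `𝓘_g(k)` of the question.

Theorem.  If `𝓘_π(1)` and its commutator subgroup `[𝓘_π(1), 𝓘_π(1)]` are finitely generated, then
`𝓘_π(k)` is finitely generated for every `k ≥ 1`, and so is the abelian group `H_1(𝓘_π(k), ℤ)`.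

The proof shows more generally: if a group `G` and `[G, G]` are finitely generated then every normal
subgroup `N` of `G` with `G / N` nilpotent is finitely generated (`fg_of_nilp` in the imported file).

Idea of the proof.  Let `K = γ_k(G)`, `k ≥ 2`, be finitely generated, and let `χ : K → ℝ` be a
nonzero homomorphism that vanishes on `γ_{k+1}(G)`; it is invariant under conjugation by `G`.  If a
word of length `r` in the generators of `G` conjugates a generator `s` of `K` to `s'`, then `s'` can
be joined to `1` in the Cayley graph of `K` by a path on which `χ ≥ -D r`, although `s'` may be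
exponentially long.  On the other hand `K` contains elements `t` of length `O(n)` in `G` with
`χ(t) = n ^ k χ(t_1)`, `χ(t_1) > 0`.  As `n ^ k` is larger than `D r`, `r = O(n)`, conjugation by `t`
shows that the part `χ ≥ 0` of the Cayley graph of `K` is connected, in a form uniform in `χ`; so
`γ_{k+1}(G)` is finitely generated (the part of Bieri–Neumann–Strebel theory used is proved in the
files).  Finally `[𝓘_π(1), 𝓘_π(k)] ≤ 𝓘_π(k + 1)`, so `γ_k(𝓘_π(1)) ≤ 𝓘_π(k)`.
-/

namespace Pool.Agent.Results.MP_c58f18_gt.TermsFG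

/-- The group `Inn(π)` of inner automorphisms of the group `π`. -/
def Inn (π : Type) [Group π] : Subgroup (MulAut π) := (MulAut.conj : π →* MulAut π).range

instance (π : Type) [Group π] : (Inn π).Normal :=
  ⟨by
    rintro _ ⟨g, rfl⟩ φ
    refine ⟨φ g, ?_⟩
    ext x
    simp [MulAut.inv_def]⟩

/-- The outer automorphism group `Out(π) = Aut(π) / Inn(π)`. -/
abbrev Out (π : Type) [Group π] : Type := MulAut π ⧸ Inn π

/-- `gamma π k`, for `k ≥ 1`, is the term `γ_k(π)` of the lower central series, `γ_1(π) = π` and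
`γ_{k+1}(π) = [γ_k(π), π]`. -/
abbrev gamma (π : Type) [Group π] (k : ℕ) : Subgroup π := (⊤ : Subgroup π).lowerCentralSeries (k - 1)

/-- The kernel of `Out(π) → Out(π / γ_{k+1}(π))`: the classes of the automorphisms `φ` of `π` that
induce an inner automorphism of `π / γ_{k+1}(π)`, that is, for which there is `g ∈ π` with
`φ(x) ∈ g x g⁻¹ γ_{k+1}(π)` for all `x ∈ π`. -/
def johnson (π : Type) [Group π] (k : ℕ) : Subgroup (Out π) where
  carrier := {q | ∃ (φ : MulAut π) (g : π), (φ : Out π) = q ∧
    ∀ x, (g * x * g⁻¹)⁻¹ * φ x ∈ gamma π (k + 1)}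
  mul_mem' := by
    rintro _ _ ⟨φ, g, rfl, hφ⟩ ⟨ψ, h, rfl, hψ⟩
    refine ⟨φ * ψ, g * h, rfl, fun x => ?_⟩
    have h1 : ((φ (ψ x) : π) : π ⧸ gamma π (k + 1)) = ((g * ψ x * g⁻¹ : π) : π ⧸ gamma π (k + 1)) :=
      (QuotientGroup.eq.2 (hφ (ψ x))).symm
    have h2 : ((ψ x : π) : π ⧸ gamma π (k + 1)) = ((h * x * h⁻¹ : π) : π ⧸ gamma π (k + 1)) :=
      (QuotientGroup.eq.2 (hψ x)).symm
    apply QuotientGroup.eq.1
    show ((g * h * x * (g * h)⁻¹ : π) : π ⧸ gamma π (k + 1)) = ((φ (ψ x) : π) : π ⧸ gamma π (k + 1))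
    rw [h1]
    simp only [QuotientGroup.mk_mul, QuotientGroup.mk_inv] at h2 ⊢
    rw [h2]
    group
  one_mem' := ⟨1, 1, rfl, fun x => by simp⟩
  inv_mem' := by
    rintro _ ⟨φ, g, rfl, hφ⟩
    refine ⟨φ⁻¹, g⁻¹, rfl, fun x => ?_⟩
    have h1 := (QuotientGroup.eq.2 (hφ (φ⁻¹ x))).symm
    have e : φ (φ⁻¹ x) = x := by simp [MulAut.inv_def]
    rw [e] at h1
    apply QuotientGroup.eq.1
    simp only [QuotientGroup.mk_mul, QuotientGroup.mk_inv] at h1 ⊢
    rw [h1]
    group

/-- If `𝓘_π(1)` and its commutator subgroup are finitely generated then `𝓘_π(k)` and its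
abelianization `H_1(𝓘_π(k), ℤ)` are finitely generated for every `k ≥ 1`. -/
theorem result (π : Type) [Group π] (h1 : (johnson π 1).FG)
    (h2 : (⁅johnson π 1, johnson π 1⁆).FG) (k : ℕ) (hk : 1 ≤ k) :
    (johnson π k).FG ∧ Group.FG (Abelianization (johnson π k)) := by
  have h3 : (johnson π k).FG := by
    refine Pool.Agent.TH555.FG.johnson_fg (QuotientGroup.mk' (Inn π)) ?_ (johnson π) ?_ h1 h2 k hk
    · intro g
      exact (QuotientGroup.eq_one_iff _).2 ⟨g, rfl⟩
    · intro k q
      exact Iff.rfl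
  refine ⟨h3, ?_⟩
  have h4 : Group.FG (johnson π k) := (Group.fg_iff_subgroup_fg _).2 h3
  exact Group.fg_of_surjective (f := (Abelianization.of : johnson π k →* _))
    (QuotientGroup.mk_surjective)

end Pool.Agent.Results.MP_c58f18_gt.TermsFG
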